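import Pool.Agent.H446.AP12.AuxQ

/-!
# Hypersurfaces of small degree through the points with few bad primes
-/

set_option autoImplicit false

namespace Pool.Agent.H446.AP12

open Finset MvPolynomial
open Pool.Agent.H446.AP (Orb mm)
open Pool.Agent.H446.AP4 (pInt)
open Pool.Agent.H446.AP5 (algebraic_of PI PI_of_map)
open Pool.Agent.H446.AP6 (IsPl isPl_pInt)
open Pool.Agent.H446.AP10
open Pool.Agent.H446.AP11

variable {m : ℕ}

/-- The conjugates of a good point are good. -/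
lemma Gd_conj {𝓕 : ℕ → Set (MvPolynomial (Fin m) ℤ)} {p : ℕ} {ω : Fin m → ℂ} (h : Gd 𝓕 p ω)
    (s : Kf ω →ₐ[ℚ] ℂ) : Gd 𝓕 p fun i => s (gn ω i) := by
  obtain ⟨hfact, h1, h2⟩ := h
  have hp0 : (p : ℂ) ≠ 0 := by exact_mod_cast hfact.out.ne_zero
  have key : ∀ z : Kf ω, (Kf ω).val z ∈ pInt p → s z ∈ pInt p := fun z hz =>
    (PI_of_map ((Kf ω).val : Kf ω →+* ℂ) hz).map (s : Kf ω →+* ℂ)
  refine ⟨hfact, fun i => key (gn ω i) (h1 i), fun F hF => ?_⟩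
  obtain ⟨y, hy, hy'⟩ := h2 F hF
  refine ⟨s (aeval (gn ω) F / p), key _ ?_, ?_⟩
  · rw [map_div₀, map_natCast, aeval_gn, hy', mul_div_cancel_left₀ _ hp0]
    exact hy
  · rw [map_div₀, map_natCast, mul_div_cancel₀ _ hp0]
    exact (map_aeval_int (s : Kf ω →+* ℂ) (gn ω) F).symm

lemma gdO_of_Gd {𝓕 : ℕ → Set (MvPolynomial (Fin m) ℤ)} {p : ℕ} [Fact p.Prime] {ω : Fin m → ℂ} (h : Gd 𝓕 p ω) :
    GdO 𝓕 p (pInt p) ω := by
  obtain ⟨_, h1, h2⟩ := h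
  exact ⟨h1, h2⟩

/-- **The hypersurface.** -/
theorem denseQ {c : ℕ} {𝓕 : ℕ → Set (MvPolynomial (Fin m) ℤ)} (h𝓕 : ∀ p, ∀ F ∈ 𝓕 p, F.totalDegree ≤ c * p)
    {𝔞 : Ideal (MvPolynomial (Fin m) ℤ)} (hp : 𝔞.IsPrime) (h0 : ∀ n : ℤ, C n ∈ 𝔞 → n = 0) :
    ∃ g ∉ 𝔞, ∃ (T₀ : ℝ) (C : ℕ), ∀ H M : ℝ, 0 ≤ H → 0 ≤ M → ∀ (Q : Finset ℕ) (x : ℕ),
      (∀ p ∈ Q, p.Prime ∧ p ≤ x ∧ Non 𝓕 𝔞 g p) → T₀ * (H + M + 1) < ∑ p ∈ Q, Real.log p / p →
      ∃ R ∉ 𝔞, R.totalDegree ≤ C * x ∧ ∀ ω : Fin m → ℂ,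
        (∀ i, ∃ P : Polynomial ℤ, Orb P ∧ Real.log (mm P) ≤ P.natDegree * H ∧ Polynomial.aeval (ω i) P = 0) →
        (∀ Q' ⊆ Q, (∀ p ∈ Q', ¬ Gd 𝓕 p ω) → ∑ p ∈ Q', Real.log p / p ≤ M) →
        (∀ f ∈ 𝔞, aeval ω f = 0) → aeval ω R = 0 := by
  classical
  obtain ⟨A, h1, h2, h3⟩ := exists_dat_of_prime hp h0
  obtain ⟨T₀, C, hT₀⟩ := stepQ A h𝓕
  refine ⟨rename A.y A.g, h1, T₀, C, fun H M hH hM Q x hQ hlt => ?_⟩
  obtain ⟨L, b, hb, hdeg, h4⟩ := hT₀ H M hH hM Q x (fun p hp => by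
    refine ⟨(hQ p hp).1, (hQ p hp).2.1, ?_⟩
    obtain ⟨k, i1, i2, z, hz, hgz, hF⟩ := (hQ p hp).2.2
    refine ⟨k, i1, i2, z, on_of_rel A fun i j => hz _ (h2 i j), ?_, hF⟩
    rwa [aeval_rename] at hgz) hlt
  refine ⟨Rb A b, h3 L b hb, hdeg, fun ω hω hbad hz => ?_⟩
  choose P hP using hω
  have halg : ∀ i, IsAlgebraic ℚ (ω i) := fun i => algebraic_of (hP i).1 (hP i).2.2
  have hfd := finite_Kf halg
  have hN0 : 0 < Module.finrank ℚ (Kf ω) := Module.finrank_pos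
  have hN0' : (0 : ℝ) < Module.finrank ℚ (Kf ω) := by exact_mod_cast hN0
  have hz' : ∀ f : MvPolynomial (Fin m) ℤ, aeval ω f = 0 → aeval (gn ω) f = 0 := fun f hf => by
    have h5 : (Kf ω).val (aeval (gn ω) f) = (Kf ω).val 0 := by rw [aeval_gn, map_zero, hf]
    exact (Kf ω).val.injective h5
  have h5 := h4 (Kf ω) (gn ω) P (fun p => if h : p.Prime then haveI : Fact p.Prime := ⟨h⟩; pInt p else ⊤)
    (fun p => if Gd 𝓕 p ω then univ else ∅) (fun i => by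
    refine ⟨(hP i).1, (hP i).2.1, ?_⟩
    have h6 := (hP i).2.2
    have h7 : (Polynomial.aeval (ω i) (P i)) = (Kf ω).val (Polynomial.aeval (gn ω i) (P i)) := by
      rw [Polynomial.aeval_def, Polynomial.aeval_def]
      show _ = ((Kf ω).val : Kf ω →+* ℂ) _
      rw [Polynomial.hom_eval₂]
      congr 1
    rw [h7] at h6
    have h8 : (Kf ω).val (Polynomial.aeval (gn ω i) (P i)) = (Kf ω).val 0 := by rw [h6, map_zero]
    exact (Kf ω).val.injective h8) (fun p hp => by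
      have hpp := (hQ p hp).1
      have hfact : Fact p.Prime := ⟨hpp⟩
      rw [dif_pos hpp]
      refine ⟨isPl_pInt p, fun s hs => ?_⟩
      by_cases hg : Gd 𝓕 p ω
      · exact gdO_of_Gd (Gd_conj hg s)
      · rw [if_neg hg] at hs
        exact absurd hs (Finset.notMem_empty _)) (by
    refine le_trans (le_of_eq ?_) (hbad (Q.filter fun p => ¬ Gd 𝓕 p ω) (Finset.filter_subset _ _) fun p hp =>
      (mem_filter.1 hp).2)
    rw [Finset.sum_filter]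
    refine Finset.sum_congr rfl fun p _ => ?_
    by_cases hg : Gd 𝓕 p ω
    · rw [if_pos hg, if_neg (not_not.2 hg), Finset.card_univ, AlgHom.card, div_self hN0'.ne', sub_self, zero_mul]
    · rw [if_neg hg, if_pos hg, Finset.card_empty, Nat.cast_zero, zero_div, sub_zero, one_mul])
    (on_of_rel A fun i j => hz' _ (hz _ (h2 i j)))
  rw [← aeval_gn, h5, map_zero]

end Pool.Agent.H446.AP12
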